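import Mathlib
import Pool.Agent.Lib.helper9.BernInd

set_option autoImplicit false

namespace Pool.Agent.Results.MP_677ad5_pr.Fails

open Filter Topology MeasureTheory ProbabilityTheory Finset

/-- the `n`-cube: two vertices are adjacent when they differ in exactly one coordinate -/
def cube (n : ℕ) : SimpleGraph (Fin n → Bool) where
  Adj x y := hammingDist x y = 1
  symm := ⟨fun x y h => by rwa [hammingDist_comm]⟩
  loopless := ⟨fun x h => by simp at h⟩

/-- `m_p = ⌊-1 / log₂ (1 - p)⌋` -/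
noncomputable def mp (p : ℝ) : ℕ := ⌊-1 / Real.logb 2 (1 - p)⌋₊

/-- the spanning subgraph with edge set `s` has a component with at least half of the vertices such
that every other component has at most `m` vertices -/
def Good (n m : ℕ) (s : Set (Sym2 (Fin n → Bool))) : Prop :=
  ∃ C : (SimpleGraph.fromEdgeSet s).ConnectedComponent, 2 ^ n ≤ 2 * C.supp.ncard ∧
    ∀ D : (SimpleGraph.fromEdgeSet s).ConnectedComponent, D ≠ C → D.supp.ncard ≤ m

variable {n : ℕ}

def flip (x : Fin n → Bool) (i : Fin n) : Fin n → Bool := Function.update x i (!x i)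

lemma dist_flip (x : Fin n → Bool) (i : Fin n) : hammingDist x (flip x i) = 1 := by
  rw [hammingDist, card_eq_one]
  refine ⟨i, ?_⟩
  ext j
  by_cases h : j = i
  · subst h; simp [flip]
  · simp [flip, h]

lemma exists_flip {x y : Fin n → Bool} (h : hammingDist x y = 1) : ∃ i, y = flip x i := by
  rw [hammingDist, card_eq_one] at h
  obtain ⟨i, hi⟩ := h
  refine ⟨i, funext fun j => ?_⟩
  have hj : j ∈ univ.filter (fun k => x k ≠ y k) ↔ j ∈ ({i} : Finset (Fin n)) := by rw [hi]
  simp only [mem_filter, mem_univ, true_and, mem_singleton] at hj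
  by_cases hji : j = i
  · subst hji
    have := hj.2 rfl
    simp only [flip, Function.update_self]
    cases hx : x j <;> cases hy : y j <;> simp_all
  · have : x j = y j := by by_contra h'; exact hji (hj.1 h')
    simp [flip, hji, this]

lemma flip_inj (x : Fin n → Bool) : Function.Injective (flip x) := by
  intro i j h
  by_contra hij
  have := congrFun h i
  simp [flip, hij] at this

lemma flip_ne (x : Fin n → Bool) (i : Fin n) : flip x i ≠ x := by
  intro h
  have := dist_flip x i
  rw [h] at this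
  simp at this

open Classical in
noncomputable def U (n : ℕ) : Finset (Sym2 (Fin n → Bool)) := univ.filter (· ∈ (cube n).edgeSet)

lemma coe_U : (U n : Set (Sym2 (Fin n → Bool))) = (cube n).edgeSet := by
  ext e; simp [U]

lemma mem_U {x y : Fin n → Bool} : s(x, y) ∈ U n ↔ hammingDist x y = 1 := by
  simp [U, cube]

def verts (c : Fin n → Bool) (S : Finset (Fin n)) : Finset (Fin n → Bool) :=
  insert c (S.image (flip c))

lemma card_verts (c : Fin n → Bool) (S : Finset (Fin n)) : (verts c S).card = S.card + 1 := by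
  rw [verts, card_insert_of_notMem, card_image_of_injective _ (flip_inj c)]
  intro h
  obtain ⟨i, -, hi⟩ := mem_image.1 h
  exact flip_ne c i hi

def sA (c : Fin n → Bool) (S : Finset (Fin n)) : Finset (Sym2 (Fin n → Bool)) :=
  S.image (fun i => s(c, flip c i))

lemma edge_inj (c : Fin n → Bool) : Function.Injective (fun i => s(c, flip c i)) := by
  intro i j h
  simp only [Sym2.eq_iff, true_and] at h
  rcases h with h | h
  · exact flip_inj c h
  · exact absurd h.2 (flip_ne c i)

lemma card_sA (c : Fin n → Bool) (S : Finset (Fin n)) : (sA c S).card = S.card :=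
  card_image_of_injective _ (edge_inj c)

def sN (c : Fin n → Bool) (S : Finset (Fin n)) : Finset (Sym2 (Fin n → Bool)) :=
  ((verts c S).biUnion (fun x => sA x univ)) \ sA c S

lemma card_sN (c : Fin n → Bool) (S : Finset (Fin n)) : (sN c S).card ≤ (S.card + 1) * n := by
  refine (card_le_card sdiff_subset).trans (card_biUnion_le.trans ?_)
  simp [card_sA, card_verts]

lemma sA_sub (c : Fin n → Bool) (S : Finset (Fin n)) : sA c S ⊆ U n := by
  intro e he
  obtain ⟨i, -, rfl⟩ := mem_image.1 he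
  exact mem_U.2 (dist_flip c i)

lemma sN_sub (c : Fin n → Bool) (S : Finset (Fin n)) : sN c S ⊆ U n := by
  intro e he
  obtain ⟨x, -, hx⟩ := mem_biUnion.1 (mem_sdiff.1 he).1
  exact sA_sub x _ hx

def sB (c : Fin n → Bool) : Finset (Sym2 (Fin n → Bool)) :=
  (verts c univ).biUnion (fun x => sA x univ)

lemma sA_sB (c : Fin n → Bool) (S : Finset (Fin n)) : sA c S ⊆ sB c := fun _ he =>
  mem_biUnion.2 ⟨c, mem_insert_self _ _, image_subset_image (subset_univ _) he⟩

lemma sN_sB (c : Fin n → Bool) (S : Finset (Fin n)) : sN c S ⊆ sB c := fun _ he => by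
  obtain ⟨x, hx, hx'⟩ := mem_biUnion.1 (mem_sdiff.1 he).1
  exact mem_biUnion.2 ⟨x, insert_subset_insert _ (image_subset_image (subset_univ _)) hx, hx'⟩

lemma dist_verts {c x : Fin n → Bool} {S : Finset (Fin n)} (h : x ∈ verts c S) :
    hammingDist c x ≤ 1 := by
  rcases mem_insert.1 h with rfl | h
  · simp
  · obtain ⟨i, -, rfl⟩ := mem_image.1 h
    exact (dist_flip c i).le

lemma sB_disj {c d : Fin n → Bool} (h : ¬ hammingDist c d ≤ 3) : Disjoint (sB c) (sB d) := by
  rw [disjoint_left]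
  intro e he he'
  obtain ⟨x, hx, h1⟩ := mem_biUnion.1 he
  obtain ⟨y, hy, h2⟩ := mem_biUnion.1 he'
  obtain ⟨i, -, rfl⟩ := mem_image.1 h1
  obtain ⟨j, -, h3⟩ := mem_image.1 h2
  have h4 : hammingDist x y ≤ 1 := by
    rcases Sym2.eq_iff.1 h3 with h | h
    · rw [h.1]; simp
    · rw [h.1]; exact (dist_flip x i).le
  have h5 := dist_verts hx
  have h6 := dist_verts hy
  have h7 := hammingDist_triangle c x d
  have h8 := hammingDist_triangle x y d
  rw [hammingDist_comm y d] at h8
  omega

def Star (c : Fin n → Bool) (S : Finset (Fin n)) (s : Finset (Sym2 (Fin n → Bool))) : Prop :=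
  sA c S ⊆ s ∧ Disjoint (sN c S) s

lemma star_mem {c : Fin n → Bool} {S : Finset (Fin n)} {s : Finset (Sym2 (Fin n → Bool))}
    (h : Star c S s) (i : Fin n) : i ∈ S ↔ s(c, flip c i) ∈ s := by
  refine ⟨fun hi => h.1 (mem_image_of_mem _ hi), fun hi => ?_⟩
  by_contra hS
  refine disjoint_left.1 h.2 (mem_sdiff.2 ⟨mem_biUnion.2 ⟨c, mem_insert_self _ _,
    mem_image_of_mem _ (mem_univ i)⟩, fun h' => ?_⟩) hi
  obtain ⟨j, hj, hj'⟩ := mem_image.1 h'
  exact hS (edge_inj c hj' ▸ hj)

lemma star_comp {c : Fin n → Bool} {S : Finset (Fin n)} {s : Finset (Sym2 (Fin n → Bool))}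
    (hs : s ⊆ U n) (h : Star c S s) :
    ((SimpleGraph.fromEdgeSet (s : Set (Sym2 (Fin n → Bool)))).connectedComponentMk c).supp =
      (verts c S : Set (Fin n → Bool)) := by
  ext x
  rw [SimpleGraph.ConnectedComponent.mem_supp_iff, SimpleGraph.ConnectedComponent.eq, mem_coe]
  constructor
  · intro hx
    rw [SimpleGraph.reachable_comm, SimpleGraph.reachable_iff_reflTransGen] at hx
    induction hx with
    | refl => exact mem_insert_self _ _
    | tail _ hab ih =>
      rename_i a b _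
      rw [SimpleGraph.fromEdgeSet_adj, mem_coe] at hab
      obtain ⟨i, rfl⟩ := exists_flip (mem_U.1 (hs hab.1))
      have h1 : s(a, flip a i) ∈ sA c S := by
        by_contra h2
        exact disjoint_left.1 h.2 (mem_sdiff.2 ⟨mem_biUnion.2 ⟨a, ih,
          mem_image_of_mem _ (mem_univ i)⟩, h2⟩) hab.1
      obtain ⟨j, hj, h2⟩ := mem_image.1 h1
      rcases Sym2.eq_iff.1 h2 with h3 | h3
      · rw [← h3.2]; exact mem_insert_of_mem (mem_image_of_mem _ hj)
      · rw [← h3.1]; exact mem_insert_self _ _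
  · intro hx
    rcases mem_insert.1 hx with rfl | hx
    · rfl
    · obtain ⟨i, hi, rfl⟩ := mem_image.1 hx
      refine SimpleGraph.Adj.reachable ?_
      rw [SimpleGraph.fromEdgeSet_adj, Sym2.eq_swap]
      exact ⟨(star_mem h i).1 hi, flip_ne c i⟩

lemma ball_card (hn : 1 ≤ n) (c : Fin n → Bool) :
    (univ.filter (fun x => hammingDist c x ≤ 3)).card ≤ 4 * n ^ 3 := by
  have h1 : (univ.filter (fun x => hammingDist c x ≤ 3)).card ≤
      ((range 4).biUnion (fun j => powersetCard j (univ : Finset (Fin n)))).card := by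
    refine card_le_card_of_injOn (fun x => univ.filter (fun i => c i ≠ x i)) ?_ ?_
    · intro x hx
      have hx' : hammingDist c x ≤ 3 := by simpa using hx
      simp only [coe_biUnion, Set.mem_iUnion, mem_coe]
      exact ⟨hammingDist c x, mem_range.2 (by omega), mem_powersetCard.2 ⟨subset_univ _, rfl⟩⟩
    · intro x _ y _ h
      funext i
      have : i ∈ univ.filter (fun i => c i ≠ x i) ↔ i ∈ univ.filter (fun i => c i ≠ y i) := by
        simp only at h
        rw [h]
      simp only [mem_filter, mem_univ, true_and] at this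
      cases hc : c i <;> cases hx : x i <;> cases hy : y i <;> simp_all
  refine h1.trans (card_biUnion_le.trans ?_)
  have h2 : ∀ j ∈ range 4, (powersetCard j (univ : Finset (Fin n))).card ≤ n ^ 3 := by
    intro j hj
    rw [card_powersetCard, card_univ, Fintype.card_fin]
    exact (Nat.choose_le_pow n j).trans (Nat.pow_le_pow_right hn (by simp at hj; omega))
  simpa using sum_le_card_nsmul _ _ _ h2

open Classical in
lemma prob_le (hn : 1 ≤ n) (m : ℕ) (hm : 2 * (m + 1) < 2 ^ n) (p : unitInterval) :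
    (setBernoulli (cube n).edgeSet p).real {s | Good n m s} ≤
      Real.exp (-((2 : ℝ) ^ n / (4 * n ^ 3) *
        (n.choose m * ((p : ℝ) ^ m * (1 - p) ^ ((m + 1) * n))))) := by
  obtain ⟨C, hC, hCc⟩ := H9B.greedy (fun c x : Fin n → Bool => hammingDist c x ≤ 3) (by simp)
    (fun x y h => by rwa [hammingDist_comm]) _ (ball_card hn)
  have hp0 := p.2.1
  have hp1 := p.2.2
  let f : (Fin n → Bool) → Finset (Sym2 (Fin n → Bool)) → ℝ := fun c s =>
    1 - ∑ S ∈ powersetCard m univ, if sA c S ⊆ s ∧ Disjoint (sN c S) s then 1 else 0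
  have hf0 : ∀ c s, 0 ≤ f c s := by
    intro c s
    simp only [f, sub_nonneg]
    rw [sum_boole]
    have : (filter (fun S => sA c S ⊆ s ∧ Disjoint (sN c S) s) (powersetCard m univ)).card ≤ 1 := by
      refine card_le_one.2 fun S hS T hT => ?_
      ext i
      rw [star_mem (mem_filter.1 hS).2 i, star_mem (mem_filter.1 hT).2 i]
    exact_mod_cast this
  have hdep : ∀ c, H9B.Dep (sB c) (f c) := by
    intro c s t hst
    simp only [f]
    congr 1
    refine sum_congr rfl fun S _ => ?_
    refine if_congr (and_congr ?_ ?_) rfl rfl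
    · exact ⟨fun h e he => (hst e (sA_sB c S he)).1 (h he),
        fun h e he => (hst e (sA_sB c S he)).2 (h he)⟩
    · rw [disjoint_left, disjoint_left]
      exact ⟨fun h e he he' => h he ((hst e (sN_sB c S he)).2 he'),
        fun h e he he' => h he ((hst e (sN_sB c S he)).1 he')⟩
  set w : ℝ := n.choose m * ((p : ℝ) ^ m * (1 - p) ^ ((m + 1) * n)) with hw
  have hw0 : 0 ≤ w := by
    have : (0 : ℝ) ≤ 1 - p := by linarith
    positivity
  have hE : ∀ c, H9B.Ex (U n) p (f c) ≤ Real.exp (-w) := by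
    intro c
    refine le_trans ?_ (by linarith [Real.add_one_le_exp (-w)] : 1 - w ≤ Real.exp (-w))
    have h1 : H9B.Ex (U n) p (f c) = 1 - ∑ S ∈ powersetCard m univ, H9B.Ex (U n) p
        (fun s => if sA c S ⊆ s ∧ Disjoint (sN c S) s then 1 else 0) := by
      have := H9B.Ex_one p (U n)
      simp only [H9B.Ex, f, mul_sub, sum_sub_distrib, mul_sum] at this ⊢
      rw [this, sum_comm]
    rw [h1, sub_le_sub_iff_left]
    have h2 : ∀ S ∈ powersetCard m (univ : Finset (Fin n)), (p : ℝ) ^ m * (1 - p) ^ ((m + 1) * n) ≤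
        H9B.Ex (U n) p (fun s => if sA c S ⊆ s ∧ Disjoint (sN c S) s then 1 else 0) := by
      intro S hS
      have hS' := (mem_powersetCard.1 hS).2
      rw [H9B.Ex_pattern p _ _ _ (sA_sub c S) (sN_sub c S) disjoint_sdiff, card_sA, hS']
      refine mul_le_mul_of_nonneg_left (pow_le_pow_of_le_one (by linarith) (by linarith) ?_)
        (by positivity)
      rw [← hS']; exact card_sN c S
    have h3 := card_nsmul_le_sum _ _ _ h2
    rw [card_powersetCard, card_univ, Fintype.card_fin, nsmul_eq_mul] at h3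
    exact h3
  rw [← coe_U, H9B.setBer_real]
  calc _ ≤ H9B.Ex (U n) p (fun s => ∏ c ∈ C, f c s) := by
        refine sum_le_sum fun s hs => ?_
        split_ifs with hG
        · beta_reduce
          rw [prod_eq_one, mul_one]
          intro c _
          simp only [f, sub_eq_self]
          refine sum_eq_zero fun S hS => if_neg fun hst => ?_
          obtain ⟨K, hK, hK'⟩ := hG
          have h1 := star_comp (mem_powerset.1 hs) hst
          have h2 : ((SimpleGraph.fromEdgeSet (s : Set (Sym2 (Fin n → Bool)))).connectedComponentMk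
              c).supp.ncard = m + 1 := by
            rw [h1, Set.ncard_coe_finset, card_verts, (mem_powersetCard.1 hS).2]
          by_cases h3 : (SimpleGraph.fromEdgeSet (s : Set (Sym2 (Fin n → Bool)))).connectedComponentMk
              c = K
          · rw [← h3, h2] at hK
            omega
          · have := hK' _ h3
            omega
        · exact mul_nonneg (H9B.wt_nonneg _ hp0 hp1 _) (prod_nonneg fun c _ => hf0 c s)
    _ = ∏ c ∈ C, H9B.Ex (U n) p (f c) :=
        H9B.Ex_prod p _ sB f hdep C fun c hc d hd hcd => sB_disj (hC c hc d hd hcd)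
    _ ≤ ∏ _c ∈ C, Real.exp (-w) := by
        refine prod_le_prod (fun c _ => sum_nonneg fun s _ =>
          mul_nonneg (H9B.wt_nonneg _ hp0 hp1 _) (hf0 c s)) fun c _ => hE c
    _ ≤ _ := by
        rw [prod_const, ← Real.exp_nat_mul, Real.exp_le_exp, mul_neg, neg_le_neg_iff]
        refine mul_le_mul_of_nonneg_right ?_ hw0
        have hn0 : (0 : ℝ) < n := by exact_mod_cast hn
        rw [div_le_iff₀ (by positivity)]
        simp only [Fintype.card_pi, Fintype.card_bool, prod_const, card_univ,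
          Fintype.card_fin] at hCc
        exact_mod_cast hCc

def mm (n : ℕ) : ℕ := Nat.sqrt (Nat.sqrt n)

noncomputable def ss (n : ℕ) : ℝ := mm n + 1 - 1 / (n + 1)

lemma ss_ge (n : ℕ) : (mm n : ℝ) ≤ ss n := by
  have : (1 : ℝ) / (n + 1) ≤ 1 := by
    rw [div_le_one (by positivity)]; linarith [Nat.cast_nonneg (α := ℝ) n]
  unfold ss; linarith

lemma ss_lt (n : ℕ) : ss n < mm n + 1 := by
  have : (0 : ℝ) < 1 / (n + 1) := by positivity
  unfold ss; linarith

noncomputable def qq (n : ℕ) : ℝ := Real.exp (-(Real.log 2 / (max (ss n) 1)))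

lemma qq_pos (n : ℕ) : 0 < qq n := Real.exp_pos _

lemma qq_lt (n : ℕ) : qq n < 1 := by
  rw [qq, Real.exp_lt_one_iff, neg_lt_zero]
  have := Real.log_pos (show (1 : ℝ) < 2 by norm_num)
  positivity

noncomputable def pp (n : ℕ) : unitInterval :=
  ⟨1 - qq n, by linarith [qq_lt n], by linarith [qq_pos n]⟩

lemma mm_tendsto : Tendsto mm atTop atTop := by
  have : Tendsto Nat.sqrt atTop atTop :=
    tendsto_atTop_atTop.2 fun b => ⟨b * b, fun a ha => Nat.le_sqrt.2 ha⟩
  exact this.comp this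

lemma mm_pow (n : ℕ) : mm n ^ 4 ≤ n := by
  have h1 := Nat.sqrt_le (Nat.sqrt n)
  have h2 := Nat.sqrt_le n
  calc mm n ^ 4 = (mm n * mm n) * (mm n * mm n) := by ring
    _ ≤ Nat.sqrt n * Nat.sqrt n := Nat.mul_le_mul h1 h1
    _ ≤ n := h2

lemma facts (n : ℕ) (h : 1 ≤ mm n) : mp (pp n) = mm n ∧ (pp n : ℝ) ≤ 1 / mm n ∧
    1 / (3 * ((mm n : ℝ) + 1)) ≤ pp n ∧
    1 / (2 * 2 ^ n) ≤ (1 - (pp n : ℝ)) ^ ((mm n + 1) * n) := by
  have hm : (1 : ℝ) ≤ mm n := by exact_mod_cast h
  have h1 := ss_ge n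
  have h2 := ss_lt n
  have hmax : max (ss n) 1 = ss n := max_eq_left (by linarith)
  have hs0 : 0 < ss n := by linarith
  have hl := Real.log_two_gt_d9
  have hl' := Real.log_two_lt_d9
  have hq : 1 - (pp n : ℝ) = Real.exp (-(Real.log 2 / ss n)) := by
    simp [pp, qq, hmax]
  refine ⟨?_, ?_, ?_, ?_⟩
  · rw [mp, hq, Real.logb, Real.log_exp]
    have : -1 / (-(Real.log 2 / ss n) / Real.log 2) = ss n := by
      have : Real.log 2 ≠ 0 := by linarith
      field_simp
    rw [this, Nat.floor_eq_iff hs0.le]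
    exact ⟨h1, h2⟩
  · have := Real.add_one_le_exp (-(Real.log 2 / ss n))
    have h3 : Real.log 2 / ss n ≤ 1 / mm n := by
      rw [div_le_div_iff₀ hs0 (by linarith)]; nlinarith
    linarith
  · set x := Real.log 2 / ss n with hx
    have hx0 : 0 < x := by positivity
    have hx1 : x ≤ 1 := by rw [hx, div_le_one hs0]; linarith
    have h3 := Real.add_one_le_exp x
    have h4 : Real.exp (-x) * Real.exp x = 1 := by rw [← Real.exp_add]; simp
    have h5 : Real.exp (-x) ≤ 1 - x / 2 := by
      have := Real.exp_pos (-x)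
      nlinarith
    have h6 : 1 / (3 * ((mm n : ℝ) + 1)) ≤ x / 2 := by
      rw [hx, div_div, div_le_div_iff₀ (by positivity) (by positivity)]; nlinarith
    linarith
  · rw [hq, ← Real.exp_nat_mul]
    have h3 : (1 : ℝ) / (2 * 2 ^ n) = Real.exp (-((n + 1) * Real.log 2)) := by
      rw [Real.exp_neg, show ((n : ℝ) + 1) = ((n + 1 : ℕ) : ℝ) by push_cast; ring,
        Real.exp_nat_mul, Real.exp_log (by norm_num), pow_succ]
      field_simp
    rw [h3, Real.exp_le_exp, mul_neg, neg_le_neg_iff, ← mul_div_assoc, div_le_iff₀ hs0]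
    have h4 : ((n : ℝ) + 1) * ss n = (n + 1) * (mm n + 1) - 1 := by
      unfold ss; field_simp
    push_cast
    have h5 : ((mm n : ℝ) + 1) * n ≤ (n + 1) * ss n := by rw [h4]; nlinarith
    nlinarith

lemma big (n : ℕ) (h : 16 ≤ mm n) :
    (n : ℝ) / 8 ≤ (2 : ℝ) ^ n / (4 * n ^ 3) *
      (n.choose (mm n) * ((pp n : ℝ) ^ mm n * (1 - pp n) ^ ((mm n + 1) * n))) := by
  obtain ⟨-, -, h2, h3⟩ := facts n (by omega)
  set m := mm n with hm
  have hmn : m ^ 4 ≤ n := mm_pow n
  have hm' : (16 : ℝ) ≤ m := by exact_mod_cast h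
  have hmn' : (m : ℝ) ^ 4 ≤ n := by exact_mod_cast hmn
  have hn0 : (0 : ℝ) < n := lt_of_lt_of_le (by positivity) hmn'
  have hle : m ≤ n := (Nat.le_self_pow (by norm_num) m).trans hmn
  have h4 : ((n + 1 - m : ℕ) : ℝ) ^ m / (m.factorial : ℝ) ≤ n.choose m := Nat.pow_le_choose m n
  have h5 : (m.factorial : ℝ) ≤ (m : ℝ) ^ m := by exact_mod_cast Nat.factorial_le_pow m
  have h6 : (n : ℝ) / 2 ≤ ((n + 1 - m : ℕ) : ℝ) := by
    rw [Nat.cast_sub (by omega)]
    push_cast
    have h0 : (2 : ℝ) ≤ m ^ 3 := le_trans (by norm_num) (pow_le_pow_left₀ (by norm_num) hm' 3)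
    have : (m : ℝ) * 2 ≤ m ^ 4 := by
      rw [show (m : ℝ) ^ 4 = m * m ^ 3 by ring]
      exact mul_le_mul_of_nonneg_left h0 (by positivity)
    linarith
  have h7 : ((n : ℝ) / 2 / m) ^ m ≤ n.choose m := by
    refine le_trans ?_ h4
    rw [div_pow]
    gcongr
  set b : ℝ := (n : ℝ) / 2 / m * (1 / (3 * ((m : ℝ) + 1))) with hb
  have h8 : b ^ m ≤ n.choose m * (pp n : ℝ) ^ m := by
    rw [hb, mul_pow]
    gcongr
  have hb1 : (n : ℝ) ≤ b * (12 * m ^ 2) := by
    rw [hb]
    have : (n : ℝ) / 2 / m * (1 / (3 * ((m : ℝ) + 1))) * (12 * m ^ 2) = n * (2 * m / (m + 1)) := by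
      field_simp; ring
    rw [this]
    refine le_mul_of_one_le_right hn0.le ?_
    rw [le_div_iff₀ (by positivity)]; linarith
  have hb0 : 0 ≤ b := by positivity
  -- b ≥ n / m^3, so b^4 ≥ n
  have hb2 : (n : ℝ) ≤ b * m ^ 3 := by
    refine hb1.trans (mul_le_mul_of_nonneg_left ?_ hb0)
    nlinarith [sq_nonneg (m : ℝ)]
  have hb3 : (m : ℝ) ≤ b := by
    have : (m : ℝ) * m ^ 3 ≤ b * m ^ 3 := by nlinarith
    exact le_of_mul_le_mul_right this (by positivity)
  have hb4 : (n : ℝ) ^ 2 ≤ 144 * b ^ 2 * n := by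
    have h9 : (n : ℝ) ^ 2 ≤ (b * (12 * m ^ 2)) ^ 2 := pow_le_pow_left₀ hn0.le hb1 2
    have h10 : (b * (12 * (m : ℝ) ^ 2)) ^ 2 = 144 * b ^ 2 * m ^ 4 := by ring
    rw [h10] at h9
    exact h9.trans (mul_le_mul_of_nonneg_left hmn' (by positivity))
  have hb5 : (n : ℝ) ≤ 144 * b ^ 2 := by
    have : (n : ℝ) * n ≤ 144 * b ^ 2 * n := by nlinarith
    exact le_of_mul_le_mul_right this hn0
  have hb6 : (n : ℝ) ≤ b ^ 4 := by
    have h0 : (144 : ℝ) ≤ b ^ 2 := by nlinarith
    rw [show b ^ 4 = b ^ 2 * b ^ 2 by ring]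
    exact hb5.trans (mul_le_mul_of_nonneg_right h0 (by positivity))
  have hb7 : (n : ℝ) ^ 4 ≤ b ^ m := by
    refine (pow_le_pow_left₀ hn0.le hb6 4).trans ?_
    rw [← pow_mul]
    exact pow_le_pow_right₀ (by linarith) h
  have h9 : (n : ℝ) ^ 4 * (1 / (2 * 2 ^ n)) ≤
      n.choose m * (pp n : ℝ) ^ m * (1 - pp n) ^ ((m + 1) * n) :=
    mul_le_mul (hb7.trans h8) h3 (by positivity) (le_trans (by positivity) h8)
  rw [← mul_assoc (n.choose m : ℝ)]
  refine le_trans (le_of_eq ?_) (mul_le_mul_of_nonneg_left h9 (by positivity))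
  field_simp
  norm_num

theorem result : ∃ p : ℕ → unitInterval, (∀ n, 0 < (p n : ℝ)) ∧
    Tendsto (fun n => (p n : ℝ)) atTop (𝓝 0) ∧
    Tendsto (fun n : ℕ => (p n : ℝ) * n) atTop atTop ∧
    Tendsto (fun n : ℕ => (setBernoulli (cube n).edgeSet (p n)).real {s | Good n (mp (p n)) s})
      atTop (𝓝 0) := by
  have hm : Tendsto (fun n => (mm n : ℝ)) atTop atTop := tendsto_natCast_atTop_atTop.comp mm_tendsto
  refine ⟨pp, fun n => sub_pos.2 (qq_lt n), ?_, ?_, ?_⟩
  · refine squeeze_zero' (Eventually.of_forall fun n => (pp n).2.1) ?_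
      (tendsto_const_nhds.div_atTop hm (a := 1))
    filter_upwards [mm_tendsto.eventually_ge_atTop 1] with n hn
    exact (facts n hn).2.1
  · refine tendsto_atTop_mono' _ ?_ hm
    filter_upwards [mm_tendsto.eventually_ge_atTop 6] with n hn
    have h1 := (facts n (by omega)).2.2.1
    have h2 : (6 : ℝ) ≤ mm n := by exact_mod_cast hn
    have h3 : (mm n : ℝ) ^ 4 ≤ n := by exact_mod_cast mm_pow n
    refine le_trans ?_ (mul_le_mul h1 h3 (by positivity) (pp n).2.1)
    rw [one_div_mul_eq_div, le_div_iff₀ (by positivity)]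
    have h4 : (36 : ℝ) ≤ (mm n : ℝ) ^ 2 := by nlinarith
    have h5 : (36 : ℝ) * (mm n : ℝ) ^ 2 ≤ (mm n : ℝ) ^ 4 := by
      rw [show (mm n : ℝ) ^ 4 = (mm n : ℝ) ^ 2 * (mm n : ℝ) ^ 2 by ring]
      exact mul_le_mul_of_nonneg_right h4 (by positivity)
    nlinarith
  · have hlim : Tendsto (fun n : ℕ => Real.exp (-((n : ℝ) / 8))) atTop (𝓝 0) :=
      Real.tendsto_exp_atBot.comp (tendsto_neg_atTop_atBot.comp
        (tendsto_natCast_atTop_atTop.atTop_div_const (by norm_num)))
    refine squeeze_zero' (Eventually.of_forall fun n => measureReal_nonneg) ?_ hlim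
    filter_upwards [mm_tendsto.eventually_ge_atTop 16] with n hn
    rw [(facts n (by omega)).1]
    have h1 := mm_pow n
    have h2 : 16 ^ 3 * mm n ≤ mm n ^ 4 := by
      rw [show mm n ^ 4 = mm n ^ 3 * mm n by ring]
      exact Nat.mul_le_mul_right _ (Nat.pow_le_pow_left hn 3)
    have h3 : n < 2 ^ n := Nat.lt_two_pow_self
    refine (prob_le (by omega) (mm n) (by omega) (pp n)).trans ?_
    rw [Real.exp_le_exp, neg_le_neg_iff]
    exact big n hn

end Pool.Agent.Results.MP_677ad5_pr.Fails
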